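import Pool.Agent.H.Brk.A

set_option autoImplicit false
open Set
open scoped RealInnerProductSpace

namespace Pool.Agent.H.MP_55235b
open Pool.Agent.H.Brk

variable {I : Type} {H : Type} [NormedAddCommGroup H] [InnerProductSpace ℝ H]

theorem nrm {v : I → H} (hv : Orthonormal ℝ v) {ι : Type} [Fintype ι] {a : ι → I}
    (ha : Function.Injective a) (c : ι → ℝ) : ‖∑ i, c i • v (a i)‖ ^ 2 = ∑ i, c i ^ 2 := by
  have := (hv.comp a ha).inner_sum c c Finset.univ
  rw [real_inner_self_eq_norm_sq] at this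
  simpa [sq] using this

def Phi (v : I → H) (r : I → ℕ → Bool) (G : I → I → Prop) : Set H :=
  {w | ‖w‖ ≤ 1 / 2 ∨ ∃ (ι : Type) (_ : Fintype ι) (n : ℕ) (α β : ι → I) (c : ι → ℝ),
    (∀ k, G (α k) (β k) ∧ Ag n (r (α k)) (r (β k))) ∧
    (Function.Injective fun k => pre n (r (α k))) ∧ ∑ k, c k ^ 2 ≤ 1 ∧
    w = ∑ k, c k • v (β k) - ∑ k, c k • v (α k)}

theorem Phi_le {v : I → H} (hv : Orthonormal ℝ v) {r : I → ℕ → Bool} {G : I → I → Prop}
    {w : H} (hw : w ∈ Phi v r G) : ‖w‖ ≤ 2 := by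
  rcases hw with h | ⟨ι, _, n, α, β, c, h1, h2, h3, rfl⟩
  · linarith
  · have ha : Function.Injective α := fun k l h => h2 (by simp only [h])
    have hb : Function.Injective β := fun k l h => h2 (by
      simp only [pre_iff.2 (h1 k).2, pre_iff.2 (h1 l).2, h])
    have e1 := nrm hv ha c
    have e2 := nrm hv hb c
    have f1 : ‖∑ k, c k • v (α k)‖ ≤ 1 := by nlinarith [norm_nonneg (∑ k, c k • v (α k))]
    have f2 : ‖∑ k, c k • v (β k)‖ ≤ 1 := by nlinarith [norm_nonneg (∑ k, c k • v (β k))]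
    linarith [norm_sub_le (∑ k, c k • v (β k)) (∑ k, c k • v (α k))]

noncomputable def NN (P : Set H) (x : H) : ℝ := ⨆ w : P, |⟪w.1, x⟫|

theorem NN_ge {P : Set H} (hP : ∀ w ∈ P, ‖w‖ ≤ 2) {w : H} (hw : w ∈ P) (x : H) :
    |⟪w, x⟫| ≤ NN P x := by
  refine le_ciSup (f := fun w : P => |⟪w.1, x⟫|) ⟨2 * ‖x‖, ?_⟩ ⟨w, hw⟩
  rintro _ ⟨w, rfl⟩
  exact (abs_real_inner_le_norm _ _).trans (by gcongr; exact hP _ w.2)

theorem NN_le {P : Set H} {x : H} {t : ℝ} (ht : 0 ≤ t) (h : ∀ w ∈ P, |⟪w, x⟫| ≤ t) :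
    NN P x ≤ t := Real.iSup_le (fun w => h _ w.2) ht

theorem NN_nn (P : Set H) (x : H) : 0 ≤ NN P x := Real.iSup_nonneg fun _ => abs_nonneg _

theorem NN_add {P : Set H} (hP : ∀ w ∈ P, ‖w‖ ≤ 2) (x y : H) :
    NN P (x + y) ≤ NN P x + NN P y :=
  NN_le (add_nonneg (NN_nn _ _) (NN_nn _ _)) fun w hw => by
    rw [inner_add_right]
    exact (abs_add_le _ _).trans (add_le_add (NN_ge hP hw x) (NN_ge hP hw y))

theorem NN_smul (P : Set H) (t : ℝ) (x : H) : NN P (t • x) = |t| * NN P x := by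
  unfold NN
  rw [Real.mul_iSup_of_nonneg (abs_nonneg t)]
  simp only [real_inner_smul_right, abs_mul]

theorem NN_up {P : Set H} (hP : ∀ w ∈ P, ‖w‖ ≤ 2) (x : H) : NN P x ≤ 2 * ‖x‖ :=
  NN_le (by positivity) fun w hw =>
    (abs_real_inner_le_norm _ _).trans (by gcongr; exact hP _ hw)

theorem cnt {κ ι S : Type} [Fintype κ] [Fintype ι] [DecidableEq S] {f : κ → S}
    (hf : Function.Injective f) (t : ι → S) (u : ι → ℝ) (hu : ∀ i, 0 ≤ u i) :
    ∑ k, ∑ i, (if t i = f k then u i else 0) ≤ ∑ i, u i := by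
  rw [Finset.sum_comm]
  refine Finset.sum_le_sum fun i _ => ?_
  by_cases h : ∃ k, t i = f k
  · obtain ⟨k, hk⟩ := h
    rw [Finset.sum_eq_single k, if_pos hk]
    · intro l _ hl
      rw [if_neg fun h => hl (hf (h.symm.trans hk))]
    · simp
  · push Not at h
    simp [h, hu i]

section
variable {v : I → H} (hv : Orthonormal ℝ v) {ι : Type} [Fintype ι] {a b : ι → I}
  (ha : Function.Injective a) (hb : Function.Injective b) (hab : ∀ i j, a i ≠ b j) (q : ι → ℝ)
include hv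

theorem zc0 {a : ι → I} {c : I} (h : ∀ i, c ≠ a i) : ⟪v c, ∑ i, q i • v (a i)⟫ = 0 := by
  rw [inner_sum]
  refine Finset.sum_eq_zero fun i _ => ?_
  rw [real_inner_smul_right, hv.inner_eq_zero (h i), mul_zero]

include ha hb hab

theorem zc (c : I) : (∃ i, (c = a i ∧ ⟪v c, ∑ i, q i • v (b i) - ∑ i, q i • v (a i)⟫ = -q i) ∨
    (c = b i ∧ ⟪v c, ∑ i, q i • v (b i) - ∑ i, q i • v (a i)⟫ = q i)) ∨
    ⟪v c, ∑ i, q i • v (b i) - ∑ i, q i • v (a i)⟫ = 0 := by
  rw [inner_sub_right]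
  by_cases h1 : ∃ i, c = a i
  · obtain ⟨i, rfl⟩ := h1
    refine Or.inl ⟨i, Or.inl ⟨rfl, ?_⟩⟩
    rw [zc0 hv q (hab i)]
    have := (hv.comp a ha).inner_right_fintype q i
    simp only [Function.comp] at this
    rw [this, zero_sub]
  · push Not at h1
    rw [zc0 hv q h1, sub_zero]
    by_cases h2 : ∃ i, c = b i
    · obtain ⟨i, rfl⟩ := h2
      exact Or.inl ⟨i, Or.inr ⟨rfl, (hv.comp b hb).inner_right_fintype q i⟩⟩
    · push Not at h2
      exact Or.inr (zc0 hv q h2)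

end

theorem up [LinearOrder I] {v : I → H} (hv : Orthonormal ℝ v) {r : I → ℕ → Bool}
    {G : I → I → Prop} (hG : ∀ a b, G a b → a < b) {ι : Type} [Fintype ι] {a b : ι → I}
    (ha : Function.Injective a) (hb : Function.Injective b) (hab : ∀ i j, a i < b j) (q : ι → ℝ)
    {L : ℕ} (h1 : ∀ i, Ag L (r (a i)) (r (b i))) (h2 : ∀ i j, Ag L (r (b i)) (r (b j)) → i = j)
    (h3 : ∀ i, ¬ G (a i) (b i)) {ρ : ℝ} (hρ : 0 ≤ ρ) (hq : ∑ i, q i ^ 2 = ρ ^ 2) :
    NN (Phi v r G) (∑ i, q i • v (b i) - ∑ i, q i • v (a i)) ≤ 3 / 2 * ρ := by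
  classical
  set z := ∑ i, q i • v (b i) - ∑ i, q i • v (a i) with hz
  refine NN_le (by positivity) ?_
  rintro w (h | ⟨κ, _, n, α, β, c, g1, g2, g3, rfl⟩)
  · have e1 := nrm hv ha q
    have e2 := nrm hv hb q
    rw [hq] at e1 e2
    have f1 := (sq_eq_sq₀ (norm_nonneg _) hρ).1 e1
    have f2 := (sq_eq_sq₀ (norm_nonneg _) hρ).1 e2
    have := norm_sub_le (∑ k, q k • v (b k)) (∑ k, q k • v (a k))
    rw [← hz] at this
    nlinarith [abs_real_inner_le_norm w z, norm_nonneg w, norm_nonneg z]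
  · let A : Finset ℕ → ℝ := fun s => ∑ i, if pre n (r (a i)) = s then q i ^ 2 else 0
    let B : Finset ℕ → ℝ := fun s => ∑ i, if pre n (r (b i)) = s then q i ^ 2 else 0
    have hA0 : ∀ s, 0 ≤ A s := fun s => Finset.sum_nonneg fun i _ => by split_ifs <;> positivity
    have hB0 : ∀ s, 0 ≤ B s := fun s => Finset.sum_nonneg fun i _ => by split_ifs <;> positivity
    have hA : ∀ i, q i ^ 2 ≤ A (pre n (r (a i))) := fun i => by
      have := Finset.single_le_sum (f := fun j => if pre n (r (a j)) = pre n (r (a i)) then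
        q j ^ 2 else 0) (fun j _ => by split_ifs <;> positivity) (Finset.mem_univ i)
      simpa using this
    have hB : ∀ i, q i ^ 2 ≤ B (pre n (r (b i))) := fun i => by
      have := Finset.single_le_sum (f := fun j => if pre n (r (b j)) = pre n (r (b i)) then
        q j ^ 2 else 0) (fun j _ => by split_ifs <;> positivity) (Finset.mem_univ i)
      simpa using this
    have one : ∀ c, ⟪v c, z⟫ ^ 2 ≤ A (pre n (r c)) + B (pre n (r c)) := fun c => by
      rcases zc hv ha hb (fun i j => (hab i j).ne) q c with ⟨i, ⟨rfl, h⟩ | ⟨rfl, h⟩⟩ | h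
      · rw [← hz] at h
        rw [h, neg_sq]
        linarith [hA i, hB0 (pre n (r (a i)))]
      · rw [← hz] at h
        rw [h]
        linarith [hB i, hA0 (pre n (r (b i)))]
      · rw [← hz] at h
        rw [h]
        linarith [hA0 (pre n (r c)), hB0 (pre n (r c))]
    have near : ∀ c, ⟪v c, z⟫ ≠ 0 → ∃ i, (c = a i ∨ c = b i) ∧ Ag L (r c) (r (b i)) ∧
        ⟪v c, z⟫ ^ 2 = q i ^ 2 := fun c h0 => by
      rcases zc hv ha hb (fun i j => (hab i j).ne) q c with ⟨i, ⟨rfl, h⟩ | ⟨rfl, h⟩⟩ | h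
      · exact ⟨i, Or.inl rfl, h1 i, by rw [hz, h, neg_sq]⟩
      · exact ⟨i, Or.inr rfl, fun _ _ => rfl, by rw [hz, h]⟩
      · exact absurd h h0
    have edge : ∀ k, (⟪v (β k), z⟫ - ⟪v (α k), z⟫) ^ 2 ≤
        A (pre n (r (α k))) + B (pre n (r (α k))) := fun k => by
      by_cases e1 : ⟪v (β k), z⟫ = 0
      · rw [e1, zero_sub, neg_sq]
        exact one _
      by_cases e2 : ⟪v (α k), z⟫ = 0
      · rw [e2, sub_zero, pre_iff.2 (g1 k).2]
        exact one _
      obtain ⟨i, f1, f2, f3⟩ := near _ e2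
      obtain ⟨j, f4, f5, f6⟩ := near _ e1
      have hlt := hG _ _ (g1 k).1
      have hij : i ≠ j := by
        rintro rfl
        rcases f1 with f1 | f1 <;> rcases f4 with f4 | f4
        · exact hlt.ne (f1.trans f4.symm)
        · exact h3 i (f1 ▸ f4 ▸ (g1 k).1)
        · rw [f1, f4] at hlt
          exact hlt.not_gt (hab i i)
        · exact hlt.ne (f1.trans f4.symm)
      have hn : n ≤ L := by
        by_contra hn
        refine hij (h2 i j fun l hl => ?_)
        rw [← f2 l hl, ← f5 l hl, (g1 k).2 l (hl.trans (not_le.1 hn))]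
      have hAB : ∀ s, A s = B s := fun s => Finset.sum_congr rfl fun l _ => by
        rw [pre_iff.2 fun m hm => h1 l m (hm.trans_le hn)]
      have p1 : pre n (r (b i)) = pre n (r (α k)) :=
        pre_iff.2 fun m hm => (f2 m (hm.trans_le hn)).symm
      have p2 : pre n (r (b j)) = pre n (r (α k)) :=
        pre_iff.2 fun m hm => ((f5 m (hm.trans_le hn)).symm.trans ((g1 k).2 m hm).symm)
      have : q i ^ 2 + q j ^ 2 ≤ B (pre n (r (α k))) := by
        have := Finset.sum_le_sum_of_subset_of_nonneg (f := fun l =>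
          if pre n (r (b l)) = pre n (r (α k)) then q l ^ 2 else 0)
          (Finset.subset_univ {i, j}) fun l _ _ => by split_ifs <;> positivity
        rwa [Finset.sum_pair hij, if_pos p1, if_pos p2] at this
      rw [hAB]
      nlinarith [sq_nonneg (⟪v (β k), z⟫ + ⟪v (α k), z⟫)]
    have tot : ∑ k, (⟪v (β k), z⟫ - ⟪v (α k), z⟫) ^ 2 ≤ 2 * ρ ^ 2 := by
      refine (Finset.sum_le_sum fun k _ => edge k).trans ?_
      rw [Finset.sum_add_distrib]
      have e1 := cnt g2 (fun i => pre n (r (a i))) (fun i => q i ^ 2) fun i => sq_nonneg _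
      have e2 := cnt g2 (fun i => pre n (r (b i))) (fun i => q i ^ 2) fun i => sq_nonneg _
      simp only [A, B]
      linarith
    have ex : ⟪∑ k, c k • v (β k) - ∑ k, c k • v (α k), z⟫ =
        ∑ k, c k * (⟪v (β k), z⟫ - ⟪v (α k), z⟫) := by
      simp only [inner_sub_left, sum_inner, real_inner_smul_left, mul_sub, Finset.sum_sub_distrib]
    rw [ex]
    have cs := Finset.sum_mul_sq_le_sq_mul_sq Finset.univ c
      fun k => ⟪v (β k), z⟫ - ⟪v (α k), z⟫
    refine abs_le_of_sq_le_sq' ?_ (by positivity) |> abs_le.2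
    have : 0 ≤ ∑ k, (⟪v (β k), z⟫ - ⟪v (α k), z⟫) ^ 2 := by positivity
    nlinarith [sq_nonneg ρ]

theorem lo {v : I → H} (hv : Orthonormal ℝ v) {r : I → ℕ → Bool}
    {G : I → I → Prop} {ι : Type} [Fintype ι] {a b : ι → I}
    (ha : Function.Injective a) (hb : Function.Injective b) (hab : ∀ i j, a i ≠ b j) (q : ι → ℝ)
    {L : ℕ} (h1 : ∀ i, Ag L (r (a i)) (r (b i))) (h2 : ∀ i j, Ag L (r (b i)) (r (b j)) → i = j)
    (h3 : ∀ i, G (a i) (b i)) {ρ : ℝ} (hρ : 0 ≤ ρ) (hq : ∑ i, q i ^ 2 = ρ ^ 2) :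
    2 * ρ ≤ NN (Phi v r G) (∑ i, q i • v (b i) - ∑ i, q i • v (a i)) := by
  rcases hρ.eq_or_lt with rfl | hρ
  · simpa using NN_nn _ _
  set z := ∑ i, q i • v (b i) - ∑ i, q i • v (a i) with hz
  have hw : (∑ k, (q k / ρ) • v (b k) - ∑ k, (q k / ρ) • v (a k)) ∈ Phi v r G := by
    refine Or.inr ⟨ι, inferInstance, L, a, b, _, fun k => ⟨h3 k, h1 k⟩, fun i j h => h2 i j ?_,
      ?_, rfl⟩
    · intro l hl
      rw [← h1 i l hl, ← h1 j l hl, pre_iff.1 h l hl]
    · simp only [div_pow]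
      rw [← Finset.sum_div, hq, div_self (by positivity)]
  refine le_trans ?_ ((le_abs_self _).trans (NN_ge (fun w => Phi_le hv) hw z))
  have e1 : ∀ i, ⟪v (b i), z⟫ = q i := fun i => by
    rcases zc hv ha hb hab q (b i) with ⟨j, ⟨h, -⟩ | ⟨h, h'⟩⟩ | h
    · exact absurd h.symm (hab j i)
    · rw [hz, h', hb h]
    · rw [hz, inner_sub_right, zc0 hv q fun j => (hab j i).symm, sub_zero]
      exact (hv.comp b hb).inner_right_fintype q i
  have e2 : ∀ i, ⟪v (a i), z⟫ = -q i := fun i => by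
    rw [hz, inner_sub_right, zc0 hv q (hab i), zero_sub]
    exact congrArg Neg.neg ((hv.comp a ha).inner_right_fintype q i)
  simp only [inner_sub_left, sum_inner, real_inner_smul_left, e1, e2]
  rw [← Finset.sum_sub_distrib]
  have : ∀ i, q i / ρ * q i - q i / ρ * -q i = 2 / ρ * q i ^ 2 := fun i => by ring
  simp only [this]
  rw [← Finset.mul_sum, hq]
  apply le_of_eq
  field_simp

theorem main [LinearOrder I] [WellFoundedLT I] [Uncountable I] (hc : ∀ a : I, (Iic a).Countable)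
    (r : I → ℕ → Bool) (hr : Function.Injective r) {v : I → H} (hv : Orthonormal ℝ v)
    (hd : ∀ (y : H) (ε : ℝ), 0 < ε → ∃ (m : ℕ) (q : Fin m → ℚ) (a : Fin m → I),
      Function.Injective a ∧ ‖y - ∑ k, (q k : ℝ) • v (a k)‖ < ε) :
    ∃ N : H → ℝ, (∀ x y, N (x + y) ≤ N x + N y) ∧ (∀ (t : ℝ) x, N (t • x) = |t| * N x) ∧
      (∀ x, 1 / 2 * ‖x‖ ≤ N x ∧ N x ≤ 2 * ‖x‖) ∧ ∀ (Y : Set H) (δ : ℝ), 0 < δ →
        (∀ y ∈ Y, ∀ y' ∈ Y, y ≠ y' → N (y - y') = δ) → Y.Countable := by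
  classical
  obtain ⟨G, hG, hB⟩ := brk hc r hr
  have hP : ∀ w ∈ Phi v r G, ‖w‖ ≤ 2 := fun w => Phi_le hv
  refine ⟨NN (Phi v r G), NN_add hP, NN_smul _, fun x => ⟨?_, NN_up hP x⟩, ?_⟩
  · rcases eq_or_ne x 0 with rfl | hx
    · simpa using NN_nn _ _
    have h0 : 0 < ‖x‖ := norm_pos_iff.2 hx
    have : (1 / 2 / ‖x‖) • x ∈ Phi v r G := Or.inl (by
      rw [norm_smul, Real.norm_of_nonneg (by positivity), div_mul_cancel₀ _ h0.ne'])
    refine le_trans ?_ ((le_abs_self _).trans (NN_ge hP this x))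
    rw [real_inner_smul_left, real_inner_self_eq_norm_sq]
    apply le_of_eq
    field_simp
  intro Y δ hδ hY
  by_contra hU
  have h1 : ∃ (m : ℕ) (q : Fin m → ℚ), ¬ {y ∈ Y | ∃ a : Fin m → I,
      Function.Injective a ∧ ‖y - ∑ k, (q k : ℝ) • v (a k)‖ < δ / 40}.Countable := by
    by_contra h
    push Not at h
    refine hU ((countable_iUnion fun m => countable_iUnion fun q => h m q).mono fun y hy => ?_)
    obtain ⟨m, q, h'⟩ := hd y (δ / 40) (by positivity)
    exact mem_iUnion₂.2 ⟨m, q, hy, h'⟩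
  obtain ⟨m, q, h1⟩ := h1
  have hI : Nonempty I := inferInstance
  have h2 : ∀ y : H, ∃ a : Fin m → I, (∃ a : Fin m → I, Function.Injective a ∧
      ‖y - ∑ k, (q k : ℝ) • v (a k)‖ < δ / 40) → Function.Injective a ∧
      ‖y - ∑ k, (q k : ℝ) • v (a k)‖ < δ / 40 := fun y => by
    by_cases h : ∃ a : Fin m → I, Function.Injective a ∧ ‖y - ∑ k, (q k : ℝ) • v (a k)‖ < δ / 40
    · exact ⟨h.choose, fun _ => h.choose_spec⟩
    · exact ⟨fun _ => Classical.arbitrary _, fun h' => absurd h' h⟩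
  choose a ha using h2
  obtain ⟨Z, hZ, hZU, hZa⟩ := dl h1 a
  let T : Fin m → Prop := fun i => ∀ c, {y ∈ Z | a y i = c}.Countable
  have hin : ∀ y ∈ Z, Function.Injective fun i : {i // T i} => a y i.1 := fun y hy i j h =>
    Subtype.ext ((ha y (hZ hy).2).1 h)
  have hL : ∀ y : H, ∃ L, y ∈ Z → ∀ i j : {i // T i},
      Ag L (r (a y i.1)) (r (a y j.1)) → i = j := fun y => by
    by_cases hy : y ∈ Z
    · have : ∀ p : {i // T i} × {i // T i}, ∃ l, p.1 ≠ p.2 → r (a y p.1.1) l ≠ r (a y p.2.1) l :=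
        fun p => by
          by_contra h
          push Not at h
          exact (h 0).1 (hin y hy (hr (funext fun l => (h l).2)))
      choose l hl using this
      refine ⟨Finset.univ.sup l + 1, fun _ i j h => ?_⟩
      by_contra hn
      exact hl (i, j) hn (h _ (Nat.lt_succ_of_le (Finset.le_sup (Finset.mem_univ _))))
    · exact ⟨0, fun h => absurd h hy⟩
  choose L hL using hL
  let z : H → H → H := fun y y' => ∑ i : {i // T i}, (q i.1 : ℝ) • v (a y i.1) -
    ∑ i : {i // T i}, (q i.1 : ℝ) • v (a y' i.1)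
  have hz : ∀ y ∈ Z, ∀ y' ∈ Z, ‖y - y' - z y y'‖ ≤ δ / 20 := fun y hy y' hy' => by
    have e : ∑ k, (q k : ℝ) • v (a y k) - ∑ k, (q k : ℝ) • v (a y' k) = z y y' := by
      rw [← Fintype.sum_subtype_add_sum_subtype T fun k => (q k : ℝ) • v (a y k),
        ← Fintype.sum_subtype_add_sum_subtype T fun k => (q k : ℝ) • v (a y' k)]
      have : ∑ i : {i // ¬ T i}, (q i.1 : ℝ) • v (a y i.1) =
          ∑ i : {i // ¬ T i}, (q i.1 : ℝ) • v (a y' i.1) := Finset.sum_congr rfl fun i _ => by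
        obtain ⟨c, hc'⟩ := (hZa i.1).resolve_right i.2
        rw [hc' y hy, hc' y' hy']
      rw [this, add_sub_add_right_eq_sub]
    rw [← e, sub_sub_sub_comm]
    linarith [norm_sub_le (y - ∑ k, (q k : ℝ) • v (a y k)) (y' - ∑ k, (q k : ℝ) • v (a y' k)),
      (ha y (hZ hy).2).2, (ha y' (hZ hy').2).2]
  set ρ := √(∑ i : {i // T i}, (q i.1 : ℝ) ^ 2) with hρ
  have hq : ∑ i : {i // T i}, (q i.1 : ℝ) ^ 2 = ρ ^ 2 := (Real.sq_sqrt (by positivity)).symm
  have hρ0 : 0 ≤ ρ := Real.sqrt_nonneg _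
  have near : ∀ y ∈ Z, ∀ y' ∈ Z, y ≠ y' → |NN (Phi v r G) (z y y') - δ| ≤ δ / 10 := by
    intro y hy y' hy' hne
    have e := hY y (hZ hy).1 y' (hZ hy').1 hne
    have e1 := NN_add hP (z y y') (y - y' - z y y')
    have e2 := NN_add hP (y - y') (-(y - y' - z y y'))
    have e3 := NN_up hP (y - y' - z y y')
    have e4 := NN_up hP (-(y - y' - z y y'))
    rw [norm_neg] at e4
    rw [add_sub_cancel] at e1
    rw [show y - y' + -(y - y' - z y y') = z y y' by abel] at e2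
    have := hz y hy y' hy'
    rw [abs_le]
    constructor <;> linarith
  by_cases hT : Nonempty {i // T i}
  · obtain ⟨i0⟩ := hT
    obtain ⟨y, hy, y', hy', h⟩ := hB H {i // T i} Z hZU (fun y i => a y i.1) (fun i => i.2) L true
    obtain ⟨x, hx, x', hx', g⟩ := hB H {i // T i} Z hZU (fun y i => a y i.1) (fun i => i.2) L false
    have e1 := lo hv (hin y' hy') (hin y hy) (fun i j => ((h i).1 j).ne) (fun i => (q i.1 : ℝ))
      (fun i => (h i).2.1) (hL y hy) (fun i => (h i).2.2.2 rfl) hρ0 hq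
    have e2 := up hv hG (hin x' hx') (hin x hx) (fun i j => (g i).1 j) (fun i => (q i.1 : ℝ))
      (fun i => (g i).2.1) (hL x hx) (fun i h => by simpa using (g i).2.2.1 h) hρ0 hq
    have e3 := abs_le.1 (near y hy y' hy' fun e => ((h i0).1 i0).ne (by rw [e]))
    have e4 := abs_le.1 (near x hx x' hx' fun e => ((g i0).1 i0).ne (by rw [e]))
    simp only [z] at e3 e4
    linarith [e3.2, e4.1]
  · have : ¬ Z.Subsingleton := fun h => hZU h.countable
    obtain ⟨y, hy, y', hy', hne⟩ := not_subsingleton_iff.1 this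
    have e := near y hy y' hy' hne
    rw [not_nonempty_iff] at hT
    have e0 : NN (Phi v r G) (z y y') = 0 := by
      have := NN_up hP (z y y')
      simp only [z, Finset.univ_eq_empty, Finset.sum_empty, sub_zero, norm_zero, mul_zero] at this ⊢
      exact le_antisymm this (NN_nn _ _)
    rw [e0, zero_sub, abs_neg, abs_of_pos hδ] at e
    linarith

theorem dens [DecidableEq I] (y : lp (fun _ : I => ℝ) 2) (ε : ℝ) (hε : 0 < ε) :
    ∃ (m : ℕ) (q : Fin m → ℚ) (a : Fin m → I), Function.Injective a ∧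
      ‖y - ∑ k, (q k : ℝ) • lp.single (E := fun _ : I => ℝ) 2 (a k) (1 : ℝ)‖ < ε := by
  have h := lp.hasSum_single (by simp) y
  obtain ⟨s, hs⟩ := (Metric.tendsto_nhds.1 h (ε / 2) (by positivity)).exists
  have hq : ∀ k : Fin s.card, ∃ q : ℚ, |y (s.equivFin.symm k).1 - q| < ε / 2 / (s.card + 1) :=
    fun k => exists_rat_near _ (by positivity)
  choose q hq using hq
  refine ⟨s.card, q, fun k => (s.equivFin.symm k).1,
    Subtype.val_injective.comp s.equivFin.symm.injective, ?_⟩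
  have e : ∑ i ∈ s, lp.single (E := fun _ : I => ℝ) 2 i (y i) = ∑ k : Fin s.card,
      y (s.equivFin.symm k).1 • lp.single (E := fun _ : I => ℝ) 2 (s.equivFin.symm k).1 (1 : ℝ) := by
    rw [← Finset.sum_coe_sort s, ← s.equivFin.symm.sum_comp]
    refine Finset.sum_congr rfl fun k _ => ?_
    rw [← lp.single_smul, smul_eq_mul, mul_one]
  rw [e, dist_comm, dist_eq_norm] at hs
  have e2 : ‖∑ k : Fin s.card, y (s.equivFin.symm k).1 •
      lp.single (E := fun _ : I => ℝ) 2 (s.equivFin.symm k).1 (1 : ℝ) - ∑ k, (q k : ℝ) •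
      lp.single (E := fun _ : I => ℝ) 2 (s.equivFin.symm k).1 (1 : ℝ)‖ ≤ ε / 2 := by
    rw [← Finset.sum_sub_distrib]
    refine (norm_sum_le _ _).trans ((Finset.sum_le_card_nsmul _ _ (ε / 2 / (s.card + 1))
      fun k _ => ?_).trans ?_)
    · rw [← sub_smul, norm_smul, lp.norm_single (by simp), norm_one, mul_one]
      exact (hq k).le
    · rw [Finset.card_univ, Fintype.card_fin, nsmul_eq_mul, mul_div_assoc', div_le_iff₀ (by positivity)]
      nlinarith
  linarith [norm_sub_le_norm_sub_add_norm_sub y (∑ k : Fin s.card, y (s.equivFin.symm k).1 •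
      lp.single (E := fun _ : I => ℝ) 2 (s.equivFin.symm k).1 (1 : ℝ)) (∑ k, (q k : ℝ) •
      lp.single (E := fun _ : I => ℝ) 2 (s.equivFin.symm k).1 (1 : ℝ))]

theorem orth [DecidableEq I] :
    Orthonormal ℝ fun i : I => lp.single (E := fun _ : I => ℝ) 2 i (1 : ℝ) := by
  rw [orthonormal_iff_ite]
  intro i j
  rw [lp.inner_single_left, lp.single_apply, Pi.single_apply]
  split_ifs <;> simp

end Pool.Agent.H.MP_55235b
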